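import Mathlib
import Pool.Agent.B5Z.MY

/-! # A finite criterion for the residue classes of the number of 5-regular partitions

For a modulus `m` not divisible by `3`, the class of `0` modulo `m` contains the number of 5-regular
partitions `b (n)` of `n` for infinitely many `n`, and so does the class of `i` if there is one `n₀`,
which must be even if `m` is even, such that `- 5 (6 n₀ + 1)` is not a square modulo the prime
factors `p > 5` of `m` and `gcd (b (n₀), m) = gcd (i, m)`. -/

set_option autoImplicit false

namespace Pool.Agent.Results.MP_d6455f_nt.FiniteCriterion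

/-- the number of 5-regular partitions of `n` -/
def b (n : ℕ) : ℕ :=
  ((Finset.univ : Finset (Nat.Partition n)).filter (fun q => ∀ j ∈ q.parts, ¬ 5 ∣ j)).card

/-- Q1 for moduli not divisible by 3: the zero class, and all classes for which one example with the
same greatest common divisor is known. -/
theorem result :
    ∀ m : ℕ, 0 < m → ¬ 3 ∣ m → ∀ i : ℤ,
      ((m : ℤ) ∣ i ∨ ∃ n₀ : ℕ, (2 ∣ m → Even n₀) ∧
        (∀ p : ℕ, p.Prime → p ∣ m → 5 < p → ¬ IsSquare (-5 * (6 * (n₀ : ZMod p) + 1))) ∧
        Nat.gcd (b n₀) m = Int.gcd i m) →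
      Set.Infinite {n : ℕ | (b n : ℤ) ≡ i [ZMOD (m : ℤ)]} := by
  intro m hm h3 i hi
  rcases hi with hi | ⟨n₀, h2, hsq, hgcd⟩
  · exact Pool.Agent.B5Z.main_zero' m hm h3 i hi
  · exact Pool.Agent.B5Z.main_sq' m hm h3 n₀ h2 hsq i hgcd.symm

end Pool.Agent.Results.MP_d6455f_nt.FiniteCriterion
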