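import Mathlib
import Pool.Agent.B5F.FZ

/-! # All residue classes modulo twice a power of 5

Every residue class modulo `2 * 5 ^ k` contains the number of 5-regular partitions of `n` for
infinitely many `n`. -/

set_option autoImplicit false

namespace Pool.Agent.Results.MP_d6455f_nt.PowersOfFive

/-- Q1 in full for the moduli `2 * 5 ^ k`. -/
theorem result :
    ∀ k : ℕ, ∀ i : ℤ,
      Set.Infinite {n : ℕ |
        ((((Finset.univ : Finset (Nat.Partition n)).filter
            (fun q => ∀ j ∈ q.parts, ¬ 5 ∣ j)).card : ℤ) ≡ i [ZMOD ((2 * 5 ^ k : ℕ) : ℤ)])} := by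
  intro k i
  exact Pool.Agent.B5F.main_fives 2 k (Or.inr rfl) i

end Pool.Agent.Results.MP_d6455f_nt.PowersOfFive
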