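import Mathlib
import Pool.Agent.B5Z.MY

/-! # Residue classes of the number of 5-regular partitions modulo prime powers

Let `q = p ^ k` with a prime `p ≠ 3`. Every residue class modulo `q` which is prime to `p`, and the
class of `0`, contain the number of 5-regular partitions of `n` for infinitely many `n`. In
particular all residue classes modulo every prime other than `3` occur infinitely often. -/

set_option autoImplicit false

namespace Pool.Agent.Results.MP_d6455f_nt.PrimePowers

/-- Q1 for prime powers prime to 3: all classes prime to the modulus and the zero class; these are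
all the classes if the modulus is a prime. -/
theorem result :
    ∀ p k : ℕ, p.Prime → p ≠ 3 → ∀ i : ℤ,
      (¬ (p : ℤ) ∣ i ∨ ((p ^ k : ℕ) : ℤ) ∣ i) →
      Set.Infinite {n : ℕ |
        ((((Finset.univ : Finset (Nat.Partition n)).filter
            (fun q => ∀ j ∈ q.parts, ¬ 5 ∣ j)).card : ℤ) ≡ i [ZMOD ((p ^ k : ℕ) : ℤ)])} := by
  intro p k hp h i hi
  exact Pool.Agent.B5Z.main_pow' p k hp h i hi

end Pool.Agent.Results.MP_d6455f_nt.PrimePowers
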